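import Pool.Agent.H55.EB.Main

set_option autoImplicit false

open Module

namespace Pool.Agent.Results.MP_d770f7_co.ExponentBound

/-- An `s`-colouring of `PG(n-1, K)`: a map from the points of the projective space of `K^n`
to `s` colours. -/
abbrev Colouring (K : Type) [Field K] (n s : ℕ) : Type :=
  Projectivization K (Fin n → K) → Fin s

/-- The `s`-colouring `c` of `PG(n-1, K)` contains the `s₀`-colouring `c₀` of `PG(k-1, K)`
(where `s₀ ≤ s`): some injective linear map carries `c₀` to `c`. -/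
def Contains {K : Type} [Field K] {k n s₀ s : ℕ} (h : s₀ ≤ s) (c : Colouring K n s)
    (c₀ : Colouring K k s₀) : Prop :=
  ∃ (φ : (Fin k → K) →ₗ[K] (Fin n → K)) (hφ : Function.Injective φ),
    ∀ x, Fin.castLE h (c₀ x) = c (Projectivization.map φ hφ x)

/-- A linear subspace is homogeneous if some colour is taken by none of its points. -/
def Homogeneous {K : Type} [Field K] {n s : ℕ} (c : Colouring K n s)
    (U : Submodule K (Fin n → K)) : Prop :=
  ∃ i : Fin s, ∀ x : Projectivization K (Fin n → K), x.submodule ≤ U → c x ≠ i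

/-- Every colouring `c₀` of `PG(k-1, q)`, `q` a power of `p`, has `c₀`-free `s`-colourings of all
`PG(n-1, q)` whose homogeneous subspaces have dimension at most `C n^(1/(D-1))`, for every `D ≥ 2`
that satisfies one of four conditions. -/
theorem result (K : Type) [Field K] [Fintype K] (p : ℕ) [CharP K p] (k s₀ s D : ℕ) (h : s₀ ≤ s)
    (hs : 2 ≤ s) (hD : 2 ≤ D) (c₀ : Colouring K k s₀)
    (hcase :
      -- (a)
      D ≤ (k - 1) / 2 * (Fintype.card K - 1) ∨
      -- (b)
      (∃ U : Submodule K (Fin k → K), Homogeneous (fun x => Fin.castLE h (c₀ x)) U ∧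
        D ≤ (finrank K U - 1) * (Fintype.card K - 1)) ∨
      -- (c)
      (p ≤ s ∧ D ≤ (k - 1) * (Fintype.card K - 1)) ∨
      -- (d)
      (2 ≤ k ∧ D ≤ Fintype.card K - 1 ∧ D + (Fintype.card K + 1) / s ≤ Fintype.card K)) :
    ∃ C : ℝ, ∀ n : ℕ, ∃ c : Colouring K n s, ¬ Contains h c c₀ ∧
      ∀ U : Submodule K (Fin n → K), Homogeneous c U →
        (finrank K U : ℝ) ≤ C * (n : ℝ) ^ (1 / ((D : ℝ) - 1)) :=
  Pool.Agent.H55.EB.main (p := p) hs hD (fun x => Fin.castLE h (c₀ x)) hcase

end Pool.Agent.Results.MP_d770f7_co.ExponentBound
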