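import Pool.Agent.H22.QF.Ramsey7
import Pool.Agent.H22.QK.Fin1

set_option autoImplicit false

open Module

namespace Pool.Agent.Results.MP_d770f7_co.FanoPlane

/-- An `s`-colouring of `PG(n-1, K)`: a map from the points of the projective space of `K^n`
to `s` colours. -/
abbrev Colouring (K : Type) [Field K] (n s : ℕ) : Type :=
  Projectivization K (Fin n → K) → Fin s

/-- The `s`-colouring `c` of `PG(n-1, K)` contains the `s₀`-colouring `c₀` of `PG(k-1, K)`
(where `s₀ ≤ s`): some injective linear map carries `c₀` to `c`. -/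
def Contains {K : Type} [Field K] {k n s₀ s : ℕ} (h : s₀ ≤ s) (c : Colouring K n s)
    (c₀ : Colouring K k s₀) : Prop :=
  ∃ (φ : (Fin k → K) →ₗ[K] (Fin n → K)) (hφ : Function.Injective φ),
    ∀ x, Fin.castLE h (c₀ x) = c (Projectivization.map φ hφ x)

/-- A linear subspace is homogeneous if some colour is taken by none of its points. -/
def Homogeneous {K : Type} [Field K] {n s : ℕ} (c : Colouring K n s)
    (U : Submodule K (Fin n → K)) : Prop :=
  ∃ i : Fin s, ∀ x : Projectivization K (Fin n → K), x.submodule ≤ U → c x ≠ i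

/-- The set of nonzero vectors of a given colour. -/
def cls {n s : ℕ} (c : Colouring (ZMod 2) n s) (i : Fin s) : Set (Fin n → ZMod 2) :=
  {v | ∃ hv : v ≠ 0, c (Projectivization.mk (ZMod 2) v hv) = i}

lemma zero_notMem_cls {n s : ℕ} (c : Colouring (ZMod 2) n s) (i : Fin s) :
    (0 : Fin n → ZMod 2) ∉ cls c i := fun ⟨h, _⟩ => h rfl

lemma homogeneous_of_missed {n s : ℕ} (c : Colouring (ZMod 2) n s) (i : Fin s)
    (U : Submodule (ZMod 2) (Fin n → ZMod 2)) (h : ∀ u ∈ U, u ∉ cls c i) :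
    Homogeneous c U := by
  refine ⟨i, fun x hx => ?_⟩
  induction x using Projectivization.ind with
  | h v hv =>
    intro hc
    rw [Projectivization.submodule_mk, Submodule.span_singleton_le_iff_mem] at hx
    exact h v hx ⟨hv, hc⟩

lemma zmod2_cases (a : ZMod 2) : a = 0 ∨ a = 1 := by
  fin_cases a
  · exact Or.inl rfl
  · exact Or.inr rfl

/-- One point spans a homogeneous subspace if there are at least two colours. -/
lemma small_case {n s : ℕ} (hs : 2 ≤ s) (hn : 1 ≤ n) (c : Colouring (ZMod 2) n s) :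
    ∃ U : Submodule (ZMod 2) (Fin n → ZMod 2), Homogeneous c U ∧ finrank (ZMod 2) U = 1 := by
  classical
  let v : Fin n → ZMod 2 := Pi.single ⟨0, hn⟩ 1
  have hv : v ≠ 0 := by
    intro h
    have := congrFun h ⟨0, hn⟩
    simp [v] at this
  have hex : ∃ i : Fin s, i ≠ c (Projectivization.mk (ZMod 2) v hv) := by
    haveI : Nontrivial (Fin s) := Fin.nontrivial_iff_two_le.mpr hs
    exact exists_ne _
  obtain ⟨i, hi⟩ := hex
  refine ⟨Submodule.span (ZMod 2) {v}, homogeneous_of_missed c i _ ?_, finrank_span_singleton hv⟩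
  intro u hu hc
  rw [Submodule.mem_span_singleton] at hu
  obtain ⟨a, rfl⟩ := hu
  rcases zmod2_cases a with rfl | rfl
  · rw [zero_smul] at hc
    exact zero_notMem_cls c i hc
  · rw [one_smul] at hc
    obtain ⟨h1, h2⟩ := hc
    exact hi h2.symm

/-- The inclusion of `F_2^k` in `F_2^3`. -/
def incl (k : ℕ) : (Fin k → ZMod 2) →ₗ[ZMod 2] (Fin 3 → ZMod 2) :=
  LinearMap.pi fun i => if h : i.1 < k then LinearMap.proj (⟨i.1, h⟩ : Fin k) else 0

lemma incl_injective {k : ℕ} (hk : k ≤ 3) : Function.Injective (incl k) := by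
  intro u v huv
  funext j
  have h := congrFun huv ⟨j.1, lt_of_lt_of_le j.2 hk⟩
  simpa [incl] using h

/-- A suitable copy of the seven nonzero vectors of `F_2^3` gives a copy of `c₀`. -/
lemma contains_of_config {k s₀ s : ℕ} (h : s₀ ≤ s) (hk : k ≤ 3) (hs : 2 ≤ s)
    (c₀ : Colouring (ZMod 2) k s₀) {n : ℕ} (c : Colouring (ZMod 2) n s) :
    ∃ a : (Fin 3 → ZMod 2) → Fin s,
      (∃ ψ : (Fin 3 → ZMod 2) →ₗ[ZMod 2] (Fin n → ZMod 2), Function.Injective ψ ∧
        ∀ v, v ≠ 0 → ψ v ∈ cls c (a v)) → Contains h c c₀ := by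
  classical
  have hex : ∃ a : (Fin 3 → ZMod 2) → Fin s, ∀ (u : Fin k → ZMod 2) (hu : u ≠ 0),
      a (incl k u) = Fin.castLE h (c₀ (Projectivization.mk (ZMod 2) u hu)) := by
    refine ⟨fun v => if hv : ∃ u : Fin k → ZMod 2, u ≠ 0 ∧ incl k u = v then
      Fin.castLE h (c₀ (Projectivization.mk (ZMod 2) hv.choose hv.choose_spec.1))
      else ⟨0, by omega⟩, ?_⟩
    intro u hu
    have hv : ∃ u' : Fin k → ZMod 2, u' ≠ 0 ∧ incl k u' = incl k u := ⟨u, hu, rfl⟩
    have h1 : hv.choose = u := incl_injective hk hv.choose_spec.2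
    simp only [dif_pos hv]
    congr 3
  obtain ⟨a, ha⟩ := hex
  refine ⟨a, ?_⟩
  rintro ⟨ψ, hψ, hmem⟩
  refine ⟨ψ.comp (incl k), hψ.comp (incl_injective hk), fun x => ?_⟩
  induction x using Projectivization.ind with
  | h u hu =>
    have h0 : incl k u ≠ 0 := by
      intro h0
      exact hu (incl_injective hk (h0.trans (map_zero (incl k)).symm))
    obtain ⟨hw, hc⟩ := hmem (incl k u) h0
    rw [ha u hu] at hc
    rw [← hc, Projectivization.map_mk]
    rfl

/-- The multicoloured Erdos-Hajnal property over `F_2` in dimension `k ≤ 3`, with absolute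
constants, for all colourings of `PG(k-1, 2)` and every number `s ≥ 2` of colours. -/
theorem result : ∃ δ C : ℝ, 0 < δ ∧ 0 < C ∧ ∀ (k s₀ s : ℕ) (h : s₀ ≤ s), k ≤ 3 → 2 ≤ s →
    ∀ (c₀ : Colouring (ZMod 2) k s₀) (n : ℕ) (c : Colouring (ZMod 2) n s), ¬ Contains h c c₀ →
      ∃ U : Submodule (ZMod 2) (Fin n → ZMod 2), Homogeneous c U ∧
        C * (n : ℝ) ^ δ ≤ (finrank (ZMod 2) U : ℝ) := by
  classical
  obtain ⟨C, hC, hmain⟩ := Pool.Agent.H22.QF.ramsey7
  have hδ : (0 : ℝ) < 1 / (C : ℝ) := by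
    have : (0 : ℝ) < C := by exact_mod_cast hC
    positivity
  refine ⟨1 / (C : ℝ), 1 / 4, hδ, by norm_num, ?_⟩
  intro k s₀ s h hk hs c₀ n c hfree
  rcases Nat.eq_zero_or_pos n with rfl | hn
  · refine ⟨⊥, homogeneous_of_missed c ⟨0, by omega⟩ _ ?_, ?_⟩
    · intro u hu
      rw [Submodule.mem_bot] at hu
      rw [hu]
      exact zero_notMem_cls c _
    · rw [Nat.cast_zero, Real.zero_rpow hδ.ne', mul_zero]
      exact Nat.cast_nonneg _
  · obtain ⟨d, hd, hd2, hd3⟩ := Pool.Agent.H22.QK.real_bound hC hn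
    rcases hd2 with rfl | hd2
    · obtain ⟨U, hU, hU1⟩ := small_case hs hn c
      refine ⟨U, hU, ?_⟩
      rw [hU1]
      exact hd3
    · obtain ⟨a, hcfg⟩ := contains_of_config h hk hs c₀ c
      rcases hmain n d hd hd2 (fun v => cls c (a v)) (fun v => zero_notMem_cls c (a v)) with
        ⟨v, -, U, hU, hmiss⟩ | hconf
      · exact ⟨U, homogeneous_of_missed c _ U hmiss, by rw [hU]; exact hd3⟩
      · exact absurd (hcfg hconf) hfree

end Pool.Agent.Results.MP_d770f7_co.FanoPlane
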