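import Pool.Agent.H35.KP.Target

set_option autoImplicit false

open Module

namespace Pool.Agent.Results.MP_d770f7_co.TwoColouredLines

/-- An `s`-colouring of `PG(n-1, K)`: a map from the points of the projective space of `K^n`
to `s` colours. -/
abbrev Colouring (K : Type) [Field K] (n s : ℕ) : Type :=
  Projectivization K (Fin n → K) → Fin s

/-- The `s`-colouring `c` of `PG(n-1, K)` contains the `s₀`-colouring `c₀` of `PG(k-1, K)`
(where `s₀ ≤ s`): some injective linear map carries `c₀` to `c`. -/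
def Contains {K : Type} [Field K] {k n s₀ s : ℕ} (h : s₀ ≤ s) (c : Colouring K n s)
    (c₀ : Colouring K k s₀) : Prop :=
  ∃ (φ : (Fin k → K) →ₗ[K] (Fin n → K)) (hφ : Function.Injective φ),
    ∀ x, Fin.castLE h (c₀ x) = c (Projectivization.map φ hφ x)

/-- A linear subspace is homogeneous if some colour is taken by none of its points. -/
def Homogeneous {K : Type} [Field K] {n s : ℕ} (c : Colouring K n s)
    (U : Submodule K (Fin n → K)) : Prop :=
  ∃ i : Fin s, ∀ x : Projectivization K (Fin n → K), x.submodule ≤ U → c x ≠ i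

instance : Fact (Nat.Prime 3) := ⟨Nat.prime_three⟩

/-- The set of nonzero vectors of a given colour. -/
def cls {n s : ℕ} (c : Colouring (ZMod 3) n s) (i : Fin s) : Set (Fin n → ZMod 3) :=
  {v | ∃ hv : v ≠ 0, c (Projectivization.mk (ZMod 3) v hv) = i}

lemma zero_notMem_cls {n s : ℕ} (c : Colouring (ZMod 3) n s) (i : Fin s) :
    (0 : Fin n → ZMod 3) ∉ cls c i := fun ⟨h, _⟩ => h rfl

lemma mem_cls {n s : ℕ} (c : Colouring (ZMod 3) n s) (i : Fin s) {v : Fin n → ZMod 3}
    (hv : v ≠ 0) : v ∈ cls c i ↔ c (Projectivization.mk (ZMod 3) v hv) = i :=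
  ⟨fun ⟨_, h⟩ => h, fun h => ⟨hv, h⟩⟩

lemma mk_neg {n : ℕ} {v : Fin n → ZMod 3} (hv : v ≠ 0) (hv' : -v ≠ 0) :
    Projectivization.mk (ZMod 3) (-v) hv' = Projectivization.mk (ZMod 3) v hv := by
  rw [Projectivization.mk_eq_mk_iff']
  exact ⟨-1, by rw [neg_smul, one_smul]⟩

lemma neg_mem_cls {n s : ℕ} (c : Colouring (ZMod 3) n s) (i : Fin s) {v : Fin n → ZMod 3}
    (hv : v ∈ cls c i) : -v ∈ cls c i := by
  obtain ⟨h0, h1⟩ := hv
  exact ⟨neg_ne_zero.mpr h0, by rw [mk_neg h0]; exact h1⟩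

lemma ne_zero_of_mem_cls {n s : ℕ} {c : Colouring (ZMod 3) n s} {i : Fin s}
    {v : Fin n → ZMod 3} (hv : v ∈ cls c i) : v ≠ 0 := hv.1

lemma homogeneous_of_missed {n s : ℕ} (c : Colouring (ZMod 3) n s) (i : Fin s)
    (U : Submodule (ZMod 3) (Fin n → ZMod 3)) (h : ∀ u ∈ U, u ∉ cls c i) :
    Homogeneous c U := by
  refine ⟨i, fun x hx => ?_⟩
  induction x using Projectivization.ind with
  | h v hv =>
    intro hc
    rw [Projectivization.submodule_mk, Submodule.span_singleton_le_iff_mem] at hx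
    exact h v hx ⟨hv, hc⟩

/-- Containment of a colouring of the line, checked on the four points. -/
lemma contains_of {n : ℕ} (c₀ : Colouring (ZMod 3) 2 2) (c : Colouring (ZMod 3) n 2)
    {v0 v1 : Fin 2 → ZMod 3} (hv0 : v0 ≠ 0) (hv1 : v1 ≠ 0) (hva : v0 + v1 ≠ 0)
    (hvs : v0 - v1 ≠ 0) {r0 r1 : Fin n → ZMod 3}
    (h0 : r0 ∈ cls c (c₀ (Projectivization.mk (ZMod 3) v0 hv0)))
    (h1 : r1 ∈ cls c (c₀ (Projectivization.mk (ZMod 3) v1 hv1)))
    (h2 : r0 + r1 ∈ cls c (c₀ (Projectivization.mk (ZMod 3) (v0 + v1) hva)))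
    (h3 : r0 - r1 ∈ cls c (c₀ (Projectivization.mk (ZMod 3) (v0 - v1) hvs))) :
    Contains le_rfl c c₀ := by
  obtain ⟨φ, hφ, e0, e1, hall⟩ := Pool.Agent.H35.KP.embed v0 v1 hv0 hv1 hva hvs r0 r1
    (ne_zero_of_mem_cls h0) (ne_zero_of_mem_cls h1) (ne_zero_of_mem_cls h2)
    (ne_zero_of_mem_cls h3)
  have key : ∀ (v : Fin 2 → ZMod 3) (hv : v ≠ 0),
      φ v ∈ cls c (c₀ (Projectivization.mk (ZMod 3) v hv)) := by
    intro v hv
    rcases hall v with rfl | (rfl | rfl) | (rfl | rfl) | (rfl | rfl) | (rfl | rfl)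
    · exact absurd rfl hv
    · rw [e0]; exact h0
    · rw [mk_neg hv0, map_neg, e0]; exact neg_mem_cls c _ h0
    · rw [e1]; exact h1
    · rw [mk_neg hv1, map_neg, e1]; exact neg_mem_cls c _ h1
    · rw [map_add, e0, e1]; exact h2
    · rw [mk_neg hva, map_neg, map_add, e0, e1]; exact neg_mem_cls c _ h2
    · rw [map_sub, e0, e1]; exact h3
    · rw [mk_neg hvs, map_neg, map_sub, e0, e1]; exact neg_mem_cls c _ h3
  refine ⟨φ, hφ, fun x => ?_⟩
  induction x using Projectivization.ind with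
  | h v hv =>
    rw [Projectivization.map_mk]
    obtain ⟨h4, h5⟩ := key v hv
    exact h5.symm

/-- The vector form for a fixed dimension `d`. -/
lemma vector_form (c₀ : Colouring (ZMod 3) 2 2) (hboth : ∃ x y, c₀ x ≠ c₀ y) (n : ℕ)
    (c : Colouring (ZMod 3) n 2) (hfree : ¬ Contains le_rfl c c₀) (d : ℕ) (hd : 1 ≤ d)
    (hn : 10 ^ 28 * d ^ 10 ≤ n) :
    ∃ U : Submodule (ZMod 3) (Fin n → ZMod 3), Homogeneous c U ∧ d ≤ finrank (ZMod 3) U := by
  classical
  obtain ⟨x, y, hxy⟩ := hboth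
  induction x using Projectivization.ind with
  | h v0 hv0 =>
  induction y using Projectivization.ind with
  | h v1 hv1 =>
  have hva : v0 + v1 ≠ 0 := by
    intro h
    apply hxy
    have h1 : v0 = -v1 := add_eq_zero_iff_eq_neg.mp h
    subst h1
    rw [mk_neg hv1]
  have hvs : v0 - v1 ≠ 0 := by
    intro h
    apply hxy
    have h1 : v0 = v1 := sub_eq_zero.mp h
    subst h1
    rfl
  set i := c₀ (Projectivization.mk (ZMod 3) v0 hv0) with hi
  set j := c₀ (Projectivization.mk (ZMod 3) v1 hv1) with hj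
  have hij : ∀ a : Fin 2, a = i ∨ a = j := by
    have : ∀ i j : Fin 2, i ≠ j → ∀ a : Fin 2, a = i ∨ a = j := by decide
    exact this i j hxy
  set R := cls c i with hRdef
  set B := cls c j with hBdef
  have hRB : ∀ v ∈ R, v ∉ B := by
    rintro v ⟨_, h1⟩ ⟨_, h2⟩
    rw [h1] at h2
    exact hxy h2
  have hBR : ∀ v ∈ B, v ∉ R := fun v h1 h2 => hRB v h2 h1
  have hcov : ∀ v : Fin n → ZMod 3, v ≠ 0 → v ∈ R ∨ v ∈ B := by
    intro v hv
    rcases hij (c (Projectivization.mk (ZMod 3) v hv)) with h | h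
    · exact Or.inl ⟨hv, h⟩
    · exact Or.inr ⟨hv, h⟩
  have hcov' : ∀ v : Fin n → ZMod 3, v ≠ 0 → v ∈ B ∨ v ∈ R := fun v hv => (hcov v hv).symm
  have h0R : (0 : Fin n → ZMod 3) ∉ R := zero_notMem_cls c i
  have h0B : (0 : Fin n → ZMod 3) ∉ B := zero_notMem_cls c j
  have hRn : ∀ v ∈ R, -v ∈ R := fun v hv => neg_mem_cls c i hv
  have hBn : ∀ v ∈ B, -v ∈ B := fun v hv => neg_mem_cls c j hv
  have hfin : 10 ^ 28 * d ^ 10 ≤ finrank (ZMod 3) (Fin n → ZMod 3) := by
    rw [Module.finrank_fin_fun]; exact hn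
  -- some identities in characteristic three
  have i1 : ∀ u v : Fin n → ZMod 3, u - v + u = -(u + v) := by
    intro u v
    have h3 := Pool.Agent.H35.KP.add3 u
    calc u - v + u = (u + u + u) + -(u + v) := by abel
      _ = -(u + v) := by rw [h3, zero_add]
  have i2 : ∀ u v : Fin n → ZMod 3, u - (v - u) = -(u + v) := by
    intro u v
    have h3 := Pool.Agent.H35.KP.add3 u
    calc u - (v - u) = (u + u + u) + -(u + v) := by abel
      _ = -(u + v) := by rw [h3, zero_add]
  -- the two-two case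
  have two_two : (∀ u ∈ R, ∀ v ∈ R, u + v ∈ B → u - v ∈ B → False) →
      ∃ U : Submodule (ZMod 3) (Fin n → ZMod 3), Homogeneous c U ∧ d ≤ finrank (ZMod 3) U := by
    intro hno
    obtain ⟨S, S', _, _, hS, hS', hsum⟩ := Pool.Agent.H35.KP.target_subspaces R B h0R h0B hcov
      hRB hRn hBn hno n ⊤ (by rw [finrank_top, Module.finrank_fin_fun])
    have hd2 : d * 2 ≤ n := by
      refine le_trans ?_ hn
      have h1 : d ≤ d ^ 10 := Nat.le_self_pow (by norm_num) d
      calc d * 2 ≤ d ^ 10 * 10 ^ 28 := Nat.mul_le_mul h1 (by norm_num)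
        _ = 10 ^ 28 * d ^ 10 := Nat.mul_comm _ _
    rcases le_total (finrank (ZMod 3) S) (finrank (ZMod 3) S') with h | h
    · exact ⟨S', homogeneous_of_missed c j S' hS', by omega⟩
    · exact ⟨S, homogeneous_of_missed c i S hS, by omega⟩
  rcases hij (c₀ (Projectivization.mk (ZMod 3) (v0 + v1) hva)) with ha | ha <;>
    rcases hij (c₀ (Projectivization.mk (ZMod 3) (v0 - v1) hvs)) with hb | hb
  · -- the second colour is taken exactly once
    obtain ⟨U, hU, hcase⟩ := Pool.Agent.H35.KP.main_vec B R h0R hcov' h0B hBR hRn (by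
      intro u hu v hv huv hne
      by_contra hcon
      have hsub : u - v ∈ B := (hcov _ (sub_ne_zero.mpr hne)).resolve_left hcon
      apply hfree
      refine contains_of c₀ c hv0 hv1 hva hvs (r0 := u) (r1 := u - v) hu hsub ?_ ?_
      · rw [ha, add_comm, i1]; exact hRn _ huv
      · rw [hb, sub_sub_cancel]; exact hv) d hd hfin
    refine ⟨U, ?_, hU.ge⟩
    rcases hcase with h | h
    · exact homogeneous_of_missed c j U h
    · exact homogeneous_of_missed c i U h
  · -- two points of each colour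
    apply two_two
    intro u hu v hv h1 h2
    apply hfree
    refine contains_of c₀ c hv0 hv1 hva hvs (r0 := u) (r1 := v - u) hu ?_ ?_ ?_
    · have := hBn _ h2; rwa [neg_sub] at this
    · rw [ha, add_sub_cancel]; exact hv
    · rw [hb, i2]; exact hBn _ h1
  · -- two points of each colour
    apply two_two
    intro u hu v hv h1 h2
    apply hfree
    refine contains_of c₀ c hv0 hv1 hva hvs (r0 := u) (r1 := u - v) hu h2 ?_ ?_
    · rw [ha, add_comm, i1]; exact hBn _ h1
    · rw [hb, sub_sub_cancel]; exact hv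
  · -- the first colour is taken exactly once
    obtain ⟨U, hU, hcase⟩ := Pool.Agent.H35.KP.main_vec R B h0B hcov h0R hRB hBn (by
      intro u hu v hv huv hne
      by_contra hcon
      have hsub : u - v ∈ R := (hcov _ (sub_ne_zero.mpr hne)).resolve_right hcon
      apply hfree
      refine contains_of c₀ c hv0 hv1 hva hvs (r0 := u - v) (r1 := u) hsub hu ?_ ?_
      · rw [ha, i1]; exact hBn _ huv
      · rw [hb, sub_sub_cancel_left]; exact hBn _ hv) d hd hfin
    refine ⟨U, ?_, hU.ge⟩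
    rcases hcase with h | h
    · exact homogeneous_of_missed c i U h
    · exact homogeneous_of_missed c j U h

/-- The two-colour case of the multicoloured Erdos-Hajnal property for the colourings of the
line `PG(1,3)` which use both colours. -/
theorem result (c₀ : Colouring (ZMod 3) 2 2) (hboth : ∃ x y, c₀ x ≠ c₀ y) (n : ℕ)
    (c : Colouring (ZMod 3) n 2) (hfree : ¬ Contains le_rfl c c₀) :
    ∃ U : Submodule (ZMod 3) (Fin n → ZMod 3), Homogeneous c U ∧
      (1 / 2000 : ℝ) * (n : ℝ) ^ (1 / 10 : ℝ) ≤ (finrank (ZMod 3) U : ℝ) := by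
  classical
  set y : ℝ := (n : ℝ) ^ (1 / 10 : ℝ) with hy
  have hn0 : (0 : ℝ) ≤ n := Nat.cast_nonneg n
  have hy0 : 0 ≤ y := Real.rpow_nonneg hn0 _
  have hy10 : y ^ 10 = n := by
    rw [hy, ← Real.rpow_natCast, ← Real.rpow_mul hn0]
    norm_num
  rcases Nat.eq_zero_or_pos n with hn | hn
  · -- the zero-dimensional space
    subst hn
    refine ⟨⊥, homogeneous_of_missed c 0 ⊥ (fun u hu => ?_), ?_⟩
    · rw [Submodule.mem_bot] at hu
      rw [hu]; exact zero_notMem_cls c _
    · have : y = 0 := by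
        have h0 : y ^ 10 = 0 := by rw [hy10]; norm_num
        exact pow_eq_zero_iff (by norm_num) |>.mp h0
      rw [this, mul_zero]
      exact Nat.cast_nonneg _
  rcases lt_or_ge y 1000 with hlt | hge
  · -- a one-dimensional subspace suffices
    have hv : (fun _ => 1 : Fin n → ZMod 3) ≠ 0 := by
      intro h0
      have := congrFun h0 ⟨0, hn⟩
      simp at this
    refine ⟨Submodule.span (ZMod 3) {fun _ => 1}, ?_, ?_⟩
    · have hex : ∃ k : Fin 2, k ≠ c (Projectivization.mk (ZMod 3) _ hv) := exists_ne _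
      obtain ⟨k, hk⟩ := hex
      refine homogeneous_of_missed c k _ (fun u hu => ?_)
      rintro ⟨hu0, hcu⟩
      rw [Submodule.mem_span_singleton] at hu
      obtain ⟨t, rfl⟩ := hu
      apply hk
      rw [← hcu]
      congr 1
      rw [Projectivization.mk_eq_mk_iff']
      exact ⟨t, rfl⟩
    · rw [finrank_span_singleton hv]
      push_cast
      linarith
  · -- the main case
    set d : ℕ := ⌊y / 1000⌋₊ with hd
    have hd1 : 1 ≤ d := by
      rw [hd, Nat.one_le_floor_iff]
      linarith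
    have hdle : (d : ℝ) ≤ y / 1000 := Nat.floor_le (by positivity)
    have hdlt : y / 1000 < d + 1 := Nat.lt_floor_add_one _
    have hbound : 10 ^ 28 * d ^ 10 ≤ n := by
      have hr : (10 ^ 28 * d ^ 10 : ℝ) ≤ n := by
        calc (10 ^ 28 * d ^ 10 : ℝ) ≤ 10 ^ 30 * d ^ 10 := by
              refine mul_le_mul_of_nonneg_right (by norm_num) (by positivity)
          _ = (1000 * d) ^ 10 := by rw [mul_pow]; norm_num
          _ ≤ y ^ 10 := pow_le_pow_left₀ (by positivity) (by linarith) 10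
          _ = n := hy10
      exact_mod_cast hr
    obtain ⟨U, hU, hdU⟩ := vector_form c₀ hboth n c hfree d hd1 hbound
    refine ⟨U, hU, ?_⟩
    have h1 : (d : ℝ) ≤ (finrank (ZMod 3) U : ℝ) := by exact_mod_cast hdU
    have hd1' : (1 : ℝ) ≤ d := by exact_mod_cast hd1
    linarith

end Pool.Agent.Results.MP_d770f7_co.TwoColouredLines
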