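import Pool.Agent.H35.MC.Free

set_option autoImplicit false

open Module

namespace Pool.Agent.Results.MP_d770f7_co.TwoColouredPlanes

/-- An `s`-colouring of `PG(n-1, K)`: a map from the points of the projective space of `K^n`
to `s` colours. -/
abbrev Colouring (K : Type) [Field K] (n s : ℕ) : Type :=
  Projectivization K (Fin n → K) → Fin s

/-- The `s`-colouring `c` of `PG(n-1, K)` contains the `s₀`-colouring `c₀` of `PG(k-1, K)`
(where `s₀ ≤ s`): some injective linear map carries `c₀` to `c`. -/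
def Contains {K : Type} [Field K] {k n s₀ s : ℕ} (h : s₀ ≤ s) (c : Colouring K n s)
    (c₀ : Colouring K k s₀) : Prop :=
  ∃ (φ : (Fin k → K) →ₗ[K] (Fin n → K)) (hφ : Function.Injective φ),
    ∀ x, Fin.castLE h (c₀ x) = c (Projectivization.map φ hφ x)

/-- A linear subspace is homogeneous if some colour is taken by none of its points. -/
def Homogeneous {K : Type} [Field K] {n s : ℕ} (c : Colouring K n s)
    (U : Submodule K (Fin n → K)) : Prop :=
  ∃ i : Fin s, ∀ x : Projectivization K (Fin n → K), x.submodule ≤ U → c x ≠ i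

/-- One of the two colour classes of `c₀` consists of three non-collinear points of the
plane `PG(2,2)`. -/
def HasTriangleClass (c₀ : Colouring (ZMod 2) 3 2) : Prop :=
  ∃ (i : Fin 2) (x y z : Projectivization (ZMod 2) (Fin 3 → ZMod 2)),
    Projectivization.Independent ![x, y, z] ∧ ∀ w, c₀ w = i ↔ (w = x ∨ w = y ∨ w = z)

/-- The set of nonzero vectors of a given colour. -/
def cls {n s : ℕ} (c : Colouring (ZMod 2) n s) (i : Fin s) : Set (Fin n → ZMod 2) :=
  {v | ∃ hv : v ≠ 0, c (Projectivization.mk (ZMod 2) v hv) = i}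

lemma zero_notMem_cls {n s : ℕ} (c : Colouring (ZMod 2) n s) (i : Fin s) :
    (0 : Fin n → ZMod 2) ∉ cls c i := fun ⟨h, _⟩ => h rfl

lemma mem_cls {n s : ℕ} (c : Colouring (ZMod 2) n s) (i : Fin s) {v : Fin n → ZMod 2}
    (hv : v ≠ 0) : v ∈ cls c i ↔ c (Projectivization.mk (ZMod 2) v hv) = i :=
  ⟨fun ⟨_, h⟩ => h, fun h => ⟨hv, h⟩⟩

lemma homogeneous_of_missed {n s : ℕ} (c : Colouring (ZMod 2) n s) (i : Fin s)
    (U : Submodule (ZMod 2) (Fin n → ZMod 2)) (h : ∀ u ∈ U, u ∉ cls c i) :
    Homogeneous c U := by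
  refine ⟨i, fun x hx => ?_⟩
  induction x using Projectivization.ind with
  | h v hv =>
    intro hc
    rw [Projectivization.submodule_mk, Submodule.span_singleton_le_iff_mem] at hx
    exact h v hx ⟨hv, hc⟩

lemma mk_eq_iff {n : ℕ} {v w : Fin n → ZMod 2} (hv : v ≠ 0) (hw : w ≠ 0) :
    Projectivization.mk (ZMod 2) v hv = Projectivization.mk (ZMod 2) w hw ↔ v = w := by
  rw [Projectivization.mk_eq_mk_iff']
  constructor
  · rintro ⟨a, ha⟩
    rcases Pool.Agent.H35.MC.zmod2_cases a with rfl | rfl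
    · rw [zero_smul] at ha; exact absurd ha.symm hv
    · rw [one_smul] at ha; exact ha.symm
  · rintro rfl
    exact ⟨1, one_smul _ _⟩

lemma fin_two_eq : ∀ a b i : Fin 2, (a = i ↔ b = i) → a = b := by decide

lemma fin_two_other : ∀ i : Fin 2, ∃ j : Fin 2, j ≠ i ∧ ∀ a : Fin 2, a = i ∨ a = j := by decide

/-- The colourings of the plane of order two as sets of vectors. -/
lemma exists_small_class (c₀ : Colouring (ZMod 2) 3 2) : ∃ i : Fin 2, (cls c₀ i).ncard ≤ 3 := by
  classical
  by_contra hcon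
  push Not at hcon
  have h0 := hcon 0
  have h1 := hcon 1
  have hdis : Disjoint (cls c₀ 0) (cls c₀ 1) := by
    rw [Set.disjoint_left]
    rintro v ⟨_, h2⟩ ⟨_, h3⟩
    rw [h2] at h3
    exact absurd h3 (by decide)
  have hun : (cls c₀ 0 ∪ cls c₀ 1).ncard = (cls c₀ 0).ncard + (cls c₀ 1).ncard :=
    Set.ncard_union_eq hdis (Set.toFinite _) (Set.toFinite _)
  have hsub : cls c₀ 0 ∪ cls c₀ 1 ⊆ {v | v ≠ 0} := by
    rintro v (⟨hv, _⟩ | ⟨hv, _⟩) <;> exact hv
  have hle := Set.ncard_le_ncard hsub (Set.toFinite _)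
  have h7 : {v : Fin 3 → ZMod 2 | v ≠ 0}.ncard = 7 := by
    rw [Set.ncard_eq_toFinset_card']
    decide
  omega

/-- The two-colour case of the multicoloured Erdos-Hajnal property for colourings of
`PG(2,2)` which use both colours and have no colour class consisting of three
non-collinear points. -/
theorem result (c₀ : Colouring (ZMod 2) 3 2) (hboth : ∃ x y, c₀ x ≠ c₀ y)
    (htri : ¬ HasTriangleClass c₀) (n : ℕ) (c : Colouring (ZMod 2) n 2)
    (hfree : ¬ Contains le_rfl c c₀) :
    ∃ U : Submodule (ZMod 2) (Fin n → ZMod 2), Homogeneous c U ∧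
      (1 / 2000 : ℝ) * (n : ℝ) ^ (1 / 10 : ℝ) ≤ (finrank (ZMod 2) U : ℝ) := by
  classical
  obtain ⟨i, hi⟩ := exists_small_class c₀
  obtain ⟨j, hji, hij⟩ := fin_two_other i
  set R := cls c i with hRdef
  set B := cls c j with hBdef
  have hRB : ∀ v ∈ R, v ∉ B := by
    rintro v ⟨_, h1⟩ ⟨_, h2⟩
    rw [h1] at h2
    exact hji h2.symm
  have hcov : ∀ v : Fin n → ZMod 2, v ≠ 0 → v ∈ R ∨ v ∈ B := by
    intro v hv
    rcases hij (c (Projectivization.mk (ZMod 2) v hv)) with h | h
    · exact Or.inl ⟨hv, h⟩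
    · exact Or.inr ⟨hv, h⟩
  have hfree' : ¬ ∃ φ : (Fin 3 → ZMod 2) →ₗ[ZMod 2] (Fin n → ZMod 2), Function.Injective φ ∧
      ∀ v, v ≠ 0 → (v ∈ cls c₀ i ↔ φ v ∈ R) := by
    rintro ⟨φ, hφ, hall⟩
    apply hfree
    refine ⟨φ, hφ, fun x => ?_⟩
    induction x using Projectivization.ind with
    | h v hv =>
      rw [Projectivization.map_mk]
      have hφv : φ v ≠ 0 := fun h => hv (hφ (by rw [h, map_zero]))
      have h1 := hall v hv
      rw [mem_cls c₀ i hv, hRdef, mem_cls c i hφv] at h1
      exact fin_two_eq _ _ i h1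
  have hne : (cls c₀ i).Nonempty := by
    obtain ⟨x, y, hxy⟩ := hboth
    have hex : ∃ z, c₀ z = i := by
      by_contra hno
      push Not at hno
      have hx := (hij (c₀ x)).resolve_left (hno x)
      have hy := (hij (c₀ y)).resolve_left (hno y)
      exact hxy (by rw [hx, hy])
    obtain ⟨z, hz⟩ := hex
    refine ⟨z.rep, z.rep_nonzero, ?_⟩
    rw [Projectivization.mk_rep]
    exact hz
  have hnotri : ¬ ∃ u v w, Pool.Agent.H35.MC.Ind3 u v w ∧ cls c₀ i = {u, v, w} := by
    rintro ⟨u, v, w, hI, hc⟩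
    apply htri
    have hlin := Pool.Agent.H35.MC.lin_of_ind3 hI
    obtain ⟨hu, hv, hw, -⟩ := hI
    refine ⟨i, Projectivization.mk _ u hu, Projectivization.mk _ v hv,
      Projectivization.mk _ w hw, ?_, ?_⟩
    · have hf : ∀ k : Fin 3, ![u, v, w] k ≠ 0 := by
        intro k
        fin_cases k
        · exact hu
        · exact hv
        · exact hw
      have := Projectivization.Independent.mk ![u, v, w] hf hlin
      convert this using 1
      funext k
      fin_cases k <;> rfl
    · intro x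
      induction x using Projectivization.ind with
      | h a ha =>
        rw [mk_eq_iff ha hu, mk_eq_iff ha hv, mk_eq_iff ha hw, ← mem_cls c₀ i ha, hc]
        exact Iff.rfl
  have htype := Pool.Agent.H35.MC.types_of_free (cls c₀ i) (zero_notMem_cls c₀ i) hne hi hnotri
    R B (zero_notMem_cls c i) (zero_notMem_cls c j) hRB hfree'
  set y : ℝ := (n : ℝ) ^ (1 / 10 : ℝ) with hy
  have hn0 : (0 : ℝ) ≤ n := Nat.cast_nonneg n
  have hy0 : 0 ≤ y := Real.rpow_nonneg hn0 _
  have hy10 : y ^ 10 = n := by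
    rw [hy, ← Real.rpow_natCast, ← Real.rpow_mul hn0]
    norm_num
  rcases Nat.eq_zero_or_pos n with hn | hn
  · -- the zero-dimensional space
    subst hn
    refine ⟨⊥, homogeneous_of_missed c i ⊥ (fun u hu => ?_), ?_⟩
    · rw [Submodule.mem_bot] at hu
      rw [hu]; exact zero_notMem_cls c _
    · have : y = 0 := by
        have h0 : y ^ 10 = 0 := by rw [hy10]; norm_num
        exact pow_eq_zero_iff (by norm_num) |>.mp h0
      rw [this, mul_zero]
      exact Nat.cast_nonneg _
  rcases lt_or_ge y 1000 with hlt | hge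
  · -- a one-dimensional subspace suffices
    have hv : (fun _ => 1 : Fin n → ZMod 2) ≠ 0 := by
      intro h0
      have := congrFun h0 ⟨0, hn⟩
      simp at this
    refine ⟨Submodule.span (ZMod 2) {fun _ => 1}, ?_, ?_⟩
    · have hex : ∃ k : Fin 2, k ≠ c (Projectivization.mk (ZMod 2) _ hv) := exists_ne _
      obtain ⟨k, hk⟩ := hex
      refine homogeneous_of_missed c k _ (fun u hu => ?_)
      rintro ⟨hu0, hcu⟩
      rw [Submodule.mem_span_singleton] at hu
      obtain ⟨t, rfl⟩ := hu
      rcases Pool.Agent.H35.MC.zmod2_cases t with rfl | rfl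
      · exact hu0 (zero_smul _ _)
      · apply hk
        rw [← hcu]
        congr 2
    · rw [finrank_span_singleton hv]
      push_cast
      linarith
  · -- the main case
    set d : ℕ := ⌊y / 1000⌋₊ with hd
    have hd1 : 1 ≤ d := by
      rw [hd, Nat.one_le_floor_iff]
      linarith
    have hdle : (d : ℝ) ≤ y / 1000 := Nat.floor_le (by positivity)
    have hdlt : y / 1000 < d + 1 := Nat.lt_floor_add_one _
    have hbound : 10 ^ 30 * d ^ 10 ≤ finrank (ZMod 2) (Fin n → ZMod 2) := by
      rw [Module.finrank_fin_fun]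
      have hr : (10 ^ 30 * d ^ 10 : ℝ) ≤ n := by
        calc (10 ^ 30 * d ^ 10 : ℝ) = (1000 * d) ^ 10 := by rw [mul_pow]; norm_num
          _ ≤ y ^ 10 := pow_le_pow_left₀ (by positivity) (by linarith) 10
          _ = n := hy10
      exact_mod_cast hr
    obtain ⟨U, hU, hcase⟩ := Pool.Agent.H35.MC.main_vec R B (zero_notMem_cls c i)
      (zero_notMem_cls c j) hRB hcov htype d hd1 hbound
    refine ⟨U, ?_, ?_⟩
    · rcases hcase with hc | hc
      · exact homogeneous_of_missed c _ U hc
      · exact homogeneous_of_missed c _ U hc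
    · rw [hU]
      have hd1' : (1 : ℝ) ≤ d := by exact_mod_cast hd1
      linarith

end Pool.Agent.Results.MP_d770f7_co.TwoColouredPlanes
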